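import Pool.Agent.Lib.MP_6886f9_pr.Spec
import Pool.Agent.Lib.MP_6886f9_pr.Def
import Pool.Agent.Lib.MP_6886f9_pr.Mono
import Pool.Agent.Lib.MP_6886f9_pr.Loc
import Pool.Agent.Lib.MP_6886f9_pr.Stage
import Pool.Agent.Lib.MP_6886f9_pr.Poi
import Pool.Agent.Lib.MP_6886f9_pr.Ctr
import Pool.Agent.Lib.MP_6886f9_pr.Lay
import Pool.Agent.Lib.MP_6886f9_pr.Main
import Pool.Agent.Lib.MP_6886f9_pr.Tw

/-!
MP_6886f9_pr, Q1: for every k the up/down chain on k-heights is rapidly mixing on graphs of bounded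
degree whose path-width is at most logarithmic in the number of vertices, in particular on all
spanning subgraphs of the toroidal grids `ℤ² / Λ` (`Λ` any subgroup of finite index `n`, for instance the
grids `C_a □ C_b`, and with the brick walls in them all toroidal hexagonal grids) in which some nonzero
vector of `Λ` has maximum norm at most `c (1 + log n)`; on all of them the mixing time is at most
`exp (O_k (√n)) (1 + log (1/ε))`.  `Height`, `IsMove`, `Result`, `trans`, `Mixed`, `tau`,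
`IsPathDecomp`, `DegLE` and `bound` are defined in the Spec file, `OnTorus` in the file Tw.
-/

set_option autoImplicit false

namespace Pool.Agent.Results.MP_6886f9_pr.ThinGraphs

open Finset Pool.Agent.Lib.MP_6886f9_pr

private theorem main : S_Main :=
  tMain tDef (tPoi tDef (tLoc tDef (tMono tDef)) tStage) tCtr tLay

private theorem tau_le {V : Type} [Fintype V] (G : SimpleGraph V) (k : ℕ) (ε B : ℝ)
    (hB : 0 ≤ B) (h : ∀ t : ℕ, B ≤ t → Mixed G k ε t) :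
    Mixed G k ε (tau G k ε) ∧ (tau G k ε : ℝ) ≤ B + 1 := by
  have h1 : Mixed G k ε ⌈B⌉₊ := h _ (Nat.le_ceil B)
  refine ⟨Nat.sInf_mem (s := {t | Mixed G k ε t}) ⟨_, h1⟩, ?_⟩
  have h2 : tau G k ε ≤ ⌈B⌉₊ := Nat.sInf_le h1
  have h3 : ((tau G k ε : ℕ) : ℝ) ≤ (⌈B⌉₊ : ℝ) := by exact_mod_cast h2
  exact h3.trans (Nat.ceil_lt_add_one hB).le

private theorem bound_nonneg (n k D p r : ℕ) (ε : ℝ) (h0 : 0 < ε) (h1 : ε < 1) :
    0 ≤ bound n k D p r ε := by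
  unfold bound
  have hl : 0 ≤ Real.log (1 / ε) := Real.log_nonneg (by rw [le_div_iff₀ h0]; linarith)
  have hk : 0 ≤ Real.log ((k : ℝ) + 1) :=
    Real.log_nonneg (by have : (0 : ℝ) ≤ k := Nat.cast_nonneg k; linarith)
  positivity

private theorem part1 {V : Type} [Fintype V] [Nonempty V] (G : SimpleGraph V) (k D p r : ℕ)
    (X : Fin r → Finset V) (hD : DegLE G D) (hX : IsPathDecomp G X p) (ε : ℝ) (h0 : 0 < ε)
    (h1 : ε < 1) :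
    (∀ t : ℕ, bound (Fintype.card V) k D p r ε ≤ t → Mixed G k ε t) ∧
      Mixed G k ε (tau G k ε) ∧
      (tau G k ε : ℝ) ≤ bound (Fintype.card V) k D p r ε + 1 :=
  ⟨main V G k D p r X hD hX ε h0 h1,
    tau_le G k ε _ (bound_nonneg _ k D p r ε h0 h1) (main V G k D p r X hD hX ε h0 h1)⟩

private theorem poly (k D : ℕ) (c : ℝ) : ∃ (A : ℝ) (e : ℕ), 0 ≤ A ∧ ∀ n p r : ℕ, 1 ≤ n →
    (p : ℝ) ≤ c * (1 + Real.log n) → r ≤ n * p + n → ∀ ε : ℝ, 0 < ε → ε < 1 →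
    bound n k D p r ε + 1 ≤ A * (n : ℝ) ^ e * (1 + Real.log (1 / ε)) := by
  set E : ℝ := 4 * |c| * ((D : ℝ) + 1) ^ k * Real.log ((k : ℝ) + 1) with hE
  have hk0 : (0 : ℝ) ≤ k := Nat.cast_nonneg k
  have hlk : 0 ≤ Real.log ((k : ℝ) + 1) := Real.log_nonneg (by linarith)
  have hlk2 : Real.log ((k : ℝ) + 1) ≤ k := by
    have := Real.log_le_sub_one_of_pos (show (0 : ℝ) < (k : ℝ) + 1 by linarith)
    linarith
  have hE0 : 0 ≤ E := by positivity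
  refine ⟨4 * ((k : ℝ) + 1) ^ 2 * (|c| + 2) ^ 2 * Real.exp E * ((k : ℝ) + 2) + 1, 9 + ⌈E⌉₊,
    by positivity, ?_⟩
  intro n p r hn hp hr ε h0 h1
  have hn1 : (1 : ℝ) ≤ n := by exact_mod_cast hn
  have hn0 : (0 : ℝ) < n := by linarith
  have hln : 0 ≤ Real.log n := Real.log_nonneg hn1
  have hl : 0 ≤ Real.log (1 / ε) := Real.log_nonneg (by rw [le_div_iff₀ h0]; linarith)
  have hc0 : 0 ≤ |c| := abs_nonneg c
  set L := Real.log (1 / ε) with hL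
  have hp2 : (p : ℝ) ≤ |c| * (1 + Real.log n) :=
    hp.trans (mul_le_mul_of_nonneg_right (le_abs_self c) (by linarith))
  have hp3 : (p : ℝ) ≤ |c| * n := by
    have h2 := Real.log_le_sub_one_of_pos hn0
    exact hp2.trans (mul_le_mul_of_nonneg_left (by linarith) hc0)
  have hr' : (r : ℝ) + 1 ≤ (|c| + 2) * (n : ℝ) ^ 2 := by
    have h2 : (r : ℝ) ≤ n * p + n := by exact_mod_cast hr
    have h3 : (n : ℝ) * p ≤ n * (|c| * n) := mul_le_mul_of_nonneg_left hp3 hn0.le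
    nlinarith
  have hkn : (k : ℝ) * n + 1 ≤ ((k : ℝ) + 1) * n := by nlinarith
  have hpow : ((k : ℝ) + 1) ^ (4 * (p * (D + 1) ^ k)) ≤ Real.exp E * (n : ℝ) ^ ⌈E⌉₊ := by
    have e1 : ((k : ℝ) + 1) ^ (4 * (p * (D + 1) ^ k)) =
        Real.exp (4 * p * ((D : ℝ) + 1) ^ k * Real.log ((k : ℝ) + 1)) := by
      rw [show (4 * p * ((D : ℝ) + 1) ^ k * Real.log ((k : ℝ) + 1) : ℝ) =
        ((4 * (p * (D + 1) ^ k) : ℕ) : ℝ) * Real.log ((k : ℝ) + 1) by push_cast; ring,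
        Real.exp_nat_mul, Real.exp_log (by linarith)]
    have e2 : (4 * p * ((D : ℝ) + 1) ^ k * Real.log ((k : ℝ) + 1) : ℝ) ≤
        E + E * Real.log n := by
      have : E + E * Real.log n =
        4 * (|c| * (1 + Real.log n)) * ((D : ℝ) + 1) ^ k * Real.log ((k : ℝ) + 1) := by
        rw [hE]; ring
      rw [this]
      gcongr
    have e3 : Real.exp (E * Real.log n) ≤ (n : ℝ) ^ ⌈E⌉₊ := by
      rw [← Real.exp_log (show (0 : ℝ) < (n : ℝ) ^ ⌈E⌉₊ by positivity), Real.log_pow]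
      apply Real.exp_le_exp.mpr
      exact mul_le_mul_of_nonneg_right (Nat.le_ceil E) hln
    calc ((k : ℝ) + 1) ^ (4 * (p * (D + 1) ^ k))
        = Real.exp (4 * p * ((D : ℝ) + 1) ^ k * Real.log ((k : ℝ) + 1)) := e1
      _ ≤ Real.exp (E + E * Real.log n) := Real.exp_le_exp.mpr e2
      _ = Real.exp E * Real.exp (E * Real.log n) := Real.exp_add _ _
      _ ≤ Real.exp E * (n : ℝ) ^ ⌈E⌉₊ :=
        mul_le_mul_of_nonneg_left e3 (Real.exp_pos E).le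
  have hlast : (n : ℝ) * Real.log ((k : ℝ) + 1) + 2 * L ≤ ((k : ℝ) + 2) * n * (1 + L) := by
    have h1 : (n : ℝ) * Real.log ((k : ℝ) + 1) ≤ n * k :=
      mul_le_mul_of_nonneg_left hlk2 hn0.le
    have h2 : 2 * L ≤ 2 * n * L := by nlinarith
    have h3 : 0 ≤ (k : ℝ) * n * L := by positivity
    nlinarith
  have hmain : bound n k D p r ε ≤
      4 * (n : ℝ) ^ 2 * (((k : ℝ) + 1) * n) ^ 2 * ((|c| + 2) * (n : ℝ) ^ 2) ^ 2 *
        (Real.exp E * (n : ℝ) ^ ⌈E⌉₊) * (((k : ℝ) + 2) * n * (1 + L)) := by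
    unfold bound
    gcongr
  have hone : (1 : ℝ) ≤ (n : ℝ) ^ (9 + ⌈E⌉₊) * (1 + L) := by
    have h1 : (1 : ℝ) ≤ (n : ℝ) ^ (9 + ⌈E⌉₊) := one_le_pow₀ hn1
    nlinarith
  have heq : 4 * (n : ℝ) ^ 2 * (((k : ℝ) + 1) * n) ^ 2 * ((|c| + 2) * (n : ℝ) ^ 2) ^ 2 *
        (Real.exp E * (n : ℝ) ^ ⌈E⌉₊) * (((k : ℝ) + 2) * n * (1 + L)) =
      (4 * ((k : ℝ) + 1) ^ 2 * (|c| + 2) ^ 2 * Real.exp E * ((k : ℝ) + 2)) *
        ((n : ℝ) ^ (9 + ⌈E⌉₊) * (1 + L)) := by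
    rw [pow_add]; ring
  calc bound n k D p r ε + 1
      ≤ (4 * ((k : ℝ) + 1) ^ 2 * (|c| + 2) ^ 2 * Real.exp E * ((k : ℝ) + 2)) *
        ((n : ℝ) ^ (9 + ⌈E⌉₊) * (1 + L)) + (n : ℝ) ^ (9 + ⌈E⌉₊) * (1 + L) := by
        rw [← heq]; linarith
    _ = _ := by ring

theorem result :
    (∀ (V : Type) [Fintype V] [Nonempty V] (G : SimpleGraph V) (k D p r : ℕ)
      (X : Fin r → Finset V), DegLE G D → IsPathDecomp G X p →
      ∀ ε : ℝ, 0 < ε → ε < 1 →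
        (∀ t : ℕ, bound (Fintype.card V) k D p r ε ≤ t → Mixed G k ε t) ∧
        Mixed G k ε (tau G k ε) ∧
        (tau G k ε : ℝ) ≤ bound (Fintype.card V) k D p r ε + 1) ∧
    (∀ (k D : ℕ) (c : ℝ), ∃ (A : ℝ) (e : ℕ),
      ∀ (V : Type) [Fintype V] [Nonempty V] (G : SimpleGraph V) (p r : ℕ)
        (X : Fin r → Finset V), DegLE G D → IsPathDecomp G X p → r ≤ Fintype.card V →
        (p : ℝ) ≤ c * (1 + Real.log (Fintype.card V)) →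
        ∀ ε : ℝ, 0 < ε → ε < 1 → Mixed G k ε (tau G k ε) ∧
          (tau G k ε : ℝ) ≤ A * (Fintype.card V : ℝ) ^ e * (1 + Real.log (1 / ε))) ∧
    (∀ (Λ : AddSubgroup (ℤ × ℤ)) [Fintype ((ℤ × ℤ) ⧸ Λ)],
      (∃ a b : ℤ, (a, b) ∈ Λ ∧ (a, b) ≠ 0 ∧
        (max a.natAbs b.natAbs) ^ 2 ≤ Fintype.card ((ℤ × ℤ) ⧸ Λ)) ∧
      ∀ (a b : ℤ), (a, b) ∈ Λ → (a, b) ≠ 0 →
      ∀ (k : ℕ) (G : SimpleGraph ((ℤ × ℤ) ⧸ Λ)), OnTorus Λ G → ∀ ε : ℝ, 0 < ε → ε < 1 →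
      Mixed G k ε (tau G k ε) ∧
      (tau G k ε : ℝ) ≤
        4 * (Fintype.card ((ℤ × ℤ) ⧸ Λ) : ℝ) ^ 2 *
          ((k : ℝ) * Fintype.card ((ℤ × ℤ) ⧸ Λ) + 1) ^ 2 *
          ((Fintype.card ((ℤ × ℤ) ⧸ Λ) : ℝ) * (max a.natAbs b.natAbs : ℕ) + 1) ^ 2 *
          ((k : ℝ) + 1) ^ (16 * max a.natAbs b.natAbs * 5 ^ k) *
          ((Fintype.card ((ℤ × ℤ) ⧸ Λ) : ℝ) * Real.log ((k : ℝ) + 1) +
            2 * Real.log (1 / ε)) + 1) ∧
    (∀ (k : ℕ) (c : ℝ), ∃ (A : ℝ) (e : ℕ),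
      ∀ (Λ : AddSubgroup (ℤ × ℤ)) [Fintype ((ℤ × ℤ) ⧸ Λ)] (a b : ℤ),
      (a, b) ∈ Λ → (a, b) ≠ 0 →
      ((max a.natAbs b.natAbs : ℕ) : ℝ) ≤
        c * (1 + Real.log (Fintype.card ((ℤ × ℤ) ⧸ Λ) : ℝ)) →
      ∀ G : SimpleGraph ((ℤ × ℤ) ⧸ Λ), OnTorus Λ G → ∀ ε : ℝ, 0 < ε → ε < 1 →
        Mixed G k ε (tau G k ε) ∧
        (tau G k ε : ℝ) ≤
          A * (Fintype.card ((ℤ × ℤ) ⧸ Λ) : ℝ) ^ e * (1 + Real.log (1 / ε))) := by
  refine ⟨fun V _ _ G k D p r X hD hX ε h0 h1 => part1 G k D p r X hD hX ε h0 h1, ?_, ?_, ?_⟩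
  · intro k D c
    obtain ⟨A, e, _, hA⟩ := poly k D c
    refine ⟨A, e, fun V _ _ G p r X hD hX hr hp ε h0 h1 => ?_⟩
    have h := part1 G k D p r X hD hX ε h0 h1
    exact ⟨h.2.1, h.2.2.trans (hA _ p r Fintype.card_pos hp
      (hr.trans (Nat.le_add_left _ _)) ε h0 h1)⟩
  · intro Λ _
    refine ⟨tw_min Λ, fun a b hab hne k G hG ε h0 h1 => ?_⟩
    obtain ⟨r, X, hr, hX⟩ := tw_dec Λ a b hab hne G hG
    have h := part1 G k 4 (4 * max a.natAbs b.natAbs) r X (tw_deg Λ G hG) hX ε h0 h1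
    refine ⟨h.2.1, h.2.2.trans ?_⟩
    have hr2 : (r : ℝ) + 1 ≤
        (Fintype.card ((ℤ × ℤ) ⧸ Λ) : ℝ) * (max a.natAbs b.natAbs : ℕ) + 1 := by
      have h3 : (r : ℝ) ≤ ((Fintype.card ((ℤ × ℤ) ⧸ Λ) * max a.natAbs b.natAbs : ℕ) : ℝ) := by
        exact_mod_cast hr
      rw [Nat.cast_mul] at h3
      linarith
    have hl : 0 ≤ Real.log (1 / ε) := Real.log_nonneg (by rw [le_div_iff₀ h0]; linarith)
    have hk : 0 ≤ Real.log ((k : ℝ) + 1) :=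
      Real.log_nonneg (by have : (0 : ℝ) ≤ k := Nat.cast_nonneg k; linarith)
    unfold bound
    have e1 : 4 * (4 * max a.natAbs b.natAbs * (4 + 1) ^ k) =
        16 * max a.natAbs b.natAbs * 5 ^ k := by ring
    rw [e1]
    gcongr
  · intro k c
    obtain ⟨A, e, _, hA⟩ := poly k 4 (4 * c)
    refine ⟨A, e, fun Λ _ a b hab hne hm G hG ε h0 h1 => ?_⟩
    obtain ⟨r, X, hr, hX⟩ := tw_dec Λ a b hab hne G hG
    have h := part1 G k 4 (4 * max a.natAbs b.natAbs) r X (tw_deg Λ G hG) hX ε h0 h1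
    refine ⟨h.2.1, h.2.2.trans ?_⟩
    refine hA _ (4 * max a.natAbs b.natAbs) r Fintype.card_pos ?_ ?_ ε h0 h1
    · rw [Nat.cast_mul]
      have h3 : ((4 : ℕ) : ℝ) = 4 := by norm_num
      rw [h3]
      linarith
    · refine hr.trans ?_
      have h4 : Fintype.card ((ℤ × ℤ) ⧸ Λ) * max a.natAbs b.natAbs ≤
          Fintype.card ((ℤ × ℤ) ⧸ Λ) * (4 * max a.natAbs b.natAbs) :=
        Nat.mul_le_mul_left _ (by omega)
      omega

end Pool.Agent.Results.MP_6886f9_pr.ThinGraphs
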